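import Pool.Agent.Helper18.PS.St2
import Pool.Agent.Helper65.RG5

/-!
# Project PS, module SUM: a numerical sum
-/

set_option autoImplicit false

noncomputable section

namespace Pool.Agent.Helper7.PS

open Finset
open Pool.Agent.Helper18.PS
open Pool.Agent.Helper65.RG (sum_small sum_tail)

private lemma half_pow {a x : ℝ} (ha2 : a ≤ 2) (hx : 0 < x) :
    (x / 2) ^ (-a) ≤ 4 * x ^ (-a) := by
  rw [Real.div_rpow hx.le (by norm_num)]
  have h1 : (2 : ℝ) ^ (-a) = ((2 : ℝ) ^ a)⁻¹ := Real.rpow_neg (by norm_num) a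
  have h2 : (2 : ℝ) ^ a ≤ (2 : ℝ) ^ (2 : ℝ) :=
    Real.rpow_le_rpow_of_exponent_le (by norm_num) ha2
  have h3 : (2 : ℝ) ^ (2 : ℝ) = 4 := by
    rw [Real.rpow_two]
    norm_num
  rw [h3] at h2
  rw [h1, div_inv_eq_mul, mul_comm]
  exact mul_le_mul_of_nonneg_right h2 (Real.rpow_nonneg hx.le _)

private lemma sumj {a : ℝ} (ha : a = 0 ∨ a = 2 / 3 ∨ a = 4 / 3) : ∃ C : ℝ, 0 < C ∧
    ∀ (L : ℝ) (K : ℕ), 0 ≤ L → (K : ℝ) ≤ 2 * L + 1 →
      ∑ j ∈ range K, (1 + (j : ℝ)) ^ (-a) ≤ C * (1 + L) ^ (4 / 3 - a) := by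
  rcases ha with h | h | h
  · subst h
    refine ⟨2, by norm_num, fun L K hL hK => ?_⟩
    have h1 : ∑ j ∈ range K, (1 + (j : ℝ)) ^ (-(0 : ℝ)) = K := by simp
    rw [h1]
    have h2 : (1 + L) ≤ (1 + L) ^ (4 / 3 - 0 : ℝ) := by
      calc 1 + L = (1 + L) ^ (1 : ℝ) := (Real.rpow_one _).symm
        _ ≤ _ := Real.rpow_le_rpow_of_exponent_le (by linarith) (by norm_num)
    linarith
  · subst h
    refine ⟨6, by norm_num, fun L K hL hK => ?_⟩
    have h1 := sum_small (s := 2 / 3) (by norm_num) (by norm_num) K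
    have h2 : (K : ℝ) ^ (1 - 2 / 3 : ℝ) ≤ (2 * (1 + L)) ^ (1 - 2 / 3 : ℝ) :=
      Real.rpow_le_rpow (Nat.cast_nonneg _) (by linarith) (by norm_num)
    have h3 : (2 * (1 + L)) ^ (1 - 2 / 3 : ℝ) ≤ 2 * (1 + L) ^ (1 - 2 / 3 : ℝ) := by
      rw [Real.mul_rpow (by norm_num) (by linarith)]
      have h6 : (2 : ℝ) ^ (1 - 2 / 3 : ℝ) ≤ 2 ^ (1 : ℝ) :=
        Real.rpow_le_rpow_of_exponent_le (by norm_num) (by norm_num)
      rw [Real.rpow_one] at h6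
      exact mul_le_mul_of_nonneg_right h6 (Real.rpow_nonneg (by linarith) _)
    have h4 : (1 + L) ^ (1 - 2 / 3 : ℝ) ≤ (1 + L) ^ (4 / 3 - 2 / 3 : ℝ) :=
      Real.rpow_le_rpow_of_exponent_le (by linarith) (by norm_num)
    have h5 : (K : ℝ) ^ (1 - 2 / 3 : ℝ) / (1 - 2 / 3) = 3 * (K : ℝ) ^ (1 - 2 / 3 : ℝ) := by ring
    rw [h5] at h1
    linarith
  · subst h
    refine ⟨12, by norm_num, fun L K hL hK => ?_⟩
    have h1 := sum_tail (s := 4 / 3) (by norm_num) (by norm_num) 0 K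
    simp only [zero_add] at h1
    have h2 : (1 + L) ^ (4 / 3 - 4 / 3 : ℝ) = 1 := by
      rw [sub_self, Real.rpow_zero]
    rw [h2, mul_one]
    refine h1.trans ?_
    have h3 : (1 + ((0 : ℕ) : ℝ)) ^ (1 - 4 / 3 : ℝ) = 1 := by
      rw [Nat.cast_zero, add_zero, Real.one_rpow]
    rw [h3]
    have h4 : 0 ≤ (1 + (K : ℝ)) ^ (1 - 4 / 3 : ℝ) := Real.rpow_nonneg (by positivity) _
    have h5 : (2 : ℝ) ^ (4 / 3 : ℝ) ≤ 2 ^ (2 : ℝ) :=
      Real.rpow_le_rpow_of_exponent_le (by norm_num) (by norm_num)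
    have h6 : (2 : ℝ) ^ (2 : ℝ) = 4 := by
      rw [Real.rpow_two]
      norm_num
    rw [h6] at h5
    have h7 : 0 ≤ (2 : ℝ) ^ (4 / 3 : ℝ) := by positivity
    have h8 : (2 : ℝ) ^ (4 / 3 : ℝ) / (4 / 3 - 1) = 3 * (2 : ℝ) ^ (4 / 3 : ℝ) := by ring
    rw [h8]
    nlinarith

theorem hSUM : StSUM := by
  intro a ha
  obtain ⟨C, hC, hj⟩ := sumj ha
  have ha0 : 0 ≤ a := by rcases ha with h | h | h <;> rw [h] <;> norm_num
  have ha2 : a ≤ 2 := by rcases ha with h | h | h <;> rw [h] <;> norm_num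
  refine ⟨16 + 16 * C, by positivity, fun N hN => ?_⟩
  set L := Real.log N with hL
  have hL0 : 0 ≤ L := Real.log_natCast_nonneg N
  have hlog2 : 1 / 2 ≤ Real.log 2 := by
    have := Real.log_two_gt_d9
    linarith
  have hlog2' : Real.log 2 ≤ 1 := by
    have := Real.log_two_lt_d9
    linarith
  have hlog2p : 0 < Real.log 2 := by linarith
  set F := (range (N + 1)).filter (fun k : ℕ =>
    Real.exp (L ^ (2 / 3 : ℝ)) ≤ 2 ^ (k + 1) ∧ 2 ^ k ≤ N) with hF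
  have hF1 : ∀ k ∈ F, L ^ (2 / 3 : ℝ) ≤ (k : ℝ) + 1 := by
    intro k hk
    rw [hF, mem_filter] at hk
    have h1 := Real.log_le_log (Real.exp_pos _) hk.2.1
    rw [Real.log_exp, Real.log_pow] at h1
    push_cast at h1
    have : ((k : ℝ) + 1) * Real.log 2 ≤ ((k : ℝ) + 1) * 1 :=
      mul_le_mul_of_nonneg_left hlog2' (by positivity)
    linarith
  have hF2 : ∀ k ∈ F, (k : ℝ) * Real.log 2 ≤ L := by
    intro k hk
    rw [hF, mem_filter] at hk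
    have h2 : (2 : ℝ) ^ k ≤ N := by exact_mod_cast hk.2.2
    have h1 := Real.log_le_log (by positivity) h2
    rwa [Real.log_pow] at h1
  set m := ⌊L / Real.log 2⌋₊ with hm
  have hm1 : (m : ℝ) * Real.log 2 ≤ L := by
    have := Nat.floor_le (show 0 ≤ L / Real.log 2 by positivity)
    rwa [← hm, le_div_iff₀ hlog2p] at this
  have hm2 : ∀ k ∈ F, k ≤ m := by
    intro k hk
    apply Nat.le_floor
    rw [le_div_iff₀ hlog2p]
    exact hF2 k hk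
  have hm3 : ((m + 1 : ℕ) : ℝ) ≤ 2 * L + 1 := by
    push_cast
    have : (m : ℝ) * (1 / 2) ≤ (m : ℝ) * Real.log 2 :=
      mul_le_mul_of_nonneg_left hlog2 (Nat.cast_nonneg _)
    linarith
  have hterm : ∀ k ∈ F, (1 + L - k * Real.log 2) ^ (-a) / (1 + (k : ℝ)) ^ 2 ≤
      4 * (1 + L) ^ (-a) * ((((k + 1 : ℕ) : ℝ)) ^ 2)⁻¹ +
        16 * (1 + L) ^ (-(2 : ℝ)) * (1 + ((m - k : ℕ) : ℝ)) ^ (-a) := by
    intro k hk
    have hkL := hF2 k hk
    have hkm := hm2 k hk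
    have hcast : (((k + 1 : ℕ) : ℝ)) = 1 + (k : ℝ) := by
      push_cast
      ring
    rw [hcast]
    have hkp : 0 < 1 + (k : ℝ) := by positivity
    have hA : 0 ≤ (1 + L) ^ (-a) := Real.rpow_nonneg (by linarith) _
    have hA2 : 0 ≤ (1 + L) ^ (-(2 : ℝ)) := Real.rpow_nonneg (by linarith) _
    have hA3 : 0 ≤ (1 + ((m - k : ℕ) : ℝ)) ^ (-a) := Real.rpow_nonneg (by positivity) _
    have hu : 1 ≤ 1 + L - k * Real.log 2 := by linarith
    have hU : 0 ≤ (1 + L - k * Real.log 2) ^ (-a) := Real.rpow_nonneg (by linarith) _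
    by_cases hc : (k : ℝ) * Real.log 2 ≤ L / 2
    · have h1 : (1 + L - k * Real.log 2) ^ (-a) ≤ ((1 + L) / 2) ^ (-a) :=
        Real.rpow_le_rpow_of_nonpos (by linarith) (by linarith) (by linarith)
      have h2 := half_pow ha2 (show 0 < 1 + L by linarith)
      have h3 : (1 + L - k * Real.log 2) ^ (-a) / (1 + (k : ℝ)) ^ 2 ≤
          4 * (1 + L) ^ (-a) * ((1 + (k : ℝ)) ^ 2)⁻¹ := by
        rw [div_eq_mul_inv]
        exact mul_le_mul_of_nonneg_right (h1.trans h2) (by positivity)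
      have h4 : 0 ≤ 16 * (1 + L) ^ (-(2 : ℝ)) * (1 + ((m - k : ℕ) : ℝ)) ^ (-a) := by positivity
      linarith
    · have hc' : L / 2 < (k : ℝ) * Real.log 2 := not_le.1 hc
      have h1 : (k : ℝ) * Real.log 2 ≤ (k : ℝ) * 1 :=
        mul_le_mul_of_nonneg_left hlog2' (Nat.cast_nonneg _)
      have h2 : (1 + L) / 2 ≤ 1 + (k : ℝ) := by linarith
      have h3 : ((1 + (k : ℝ)) ^ 2)⁻¹ ≤ 4 * (1 + L) ^ (-(2 : ℝ)) := by
        rw [Real.rpow_neg (by linarith), Real.rpow_two]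
        have h4 : ((1 + L) / 2) ^ 2 ≤ (1 + (k : ℝ)) ^ 2 :=
          pow_le_pow_left₀ (by linarith) h2 2
        calc ((1 + (k : ℝ)) ^ 2)⁻¹ ≤ (((1 + L) / 2) ^ 2)⁻¹ :=
              inv_anti₀ (by positivity) h4
          _ = 4 * ((1 + L) ^ 2)⁻¹ := by
              field_simp
              norm_num
      have h5 : (1 + ((m - k : ℕ) : ℝ)) / 2 ≤ 1 + L - k * Real.log 2 := by
        rw [Nat.cast_sub hkm]
        have h6 : (0 : ℝ) ≤ (m : ℝ) - k := by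
          have : (k : ℝ) ≤ m := by exact_mod_cast hkm
          linarith
        have h7 : ((m : ℝ) - k) * (1 / 2) ≤ ((m : ℝ) - k) * Real.log 2 :=
          mul_le_mul_of_nonneg_left hlog2 h6
        linarith
      have h8 : (1 + L - k * Real.log 2) ^ (-a) ≤ 4 * (1 + ((m - k : ℕ) : ℝ)) ^ (-a) :=
        (Real.rpow_le_rpow_of_nonpos (by positivity) h5 (by linarith)).trans
          (half_pow ha2 (by positivity))
      have h9 : (1 + L - k * Real.log 2) ^ (-a) / (1 + (k : ℝ)) ^ 2 ≤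
          16 * (1 + L) ^ (-(2 : ℝ)) * (1 + ((m - k : ℕ) : ℝ)) ^ (-a) := by
        rw [div_eq_mul_inv]
        calc (1 + L - k * Real.log 2) ^ (-a) * ((1 + (k : ℝ)) ^ 2)⁻¹
            ≤ (4 * (1 + ((m - k : ℕ) : ℝ)) ^ (-a)) * (4 * (1 + L) ^ (-(2 : ℝ))) :=
              mul_le_mul h8 h3 (by positivity) (by positivity)
          _ = _ := by ring
      have h10 : 0 ≤ 4 * (1 + L) ^ (-a) * ((1 + (k : ℝ)) ^ 2)⁻¹ := by positivity
      linarith
  -- the first sum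
  set R : ℝ := max 1 (L ^ (2 / 3 : ℝ)) with hR
  have hR1 : 1 ≤ R := le_max_left _ _
  have hR2 : L ^ (2 / 3 : ℝ) ≤ R := le_max_right _ _
  have hRL : (1 + L) ^ (2 / 3 : ℝ) ≤ 2 * R := by
    have h1 := Real.rpow_add_le_add_rpow (p := 2 / 3) (a := 1) (b := L) (by norm_num) hL0
      (by norm_num) (by norm_num)
    rw [Real.one_rpow] at h1
    linarith
  obtain ⟨K1, hK1⟩ : ∃ K1, ⌈R⌉₊ = K1 + 1 := by
    refine ⟨⌈R⌉₊ - 1, ?_⟩
    have : 0 < ⌈R⌉₊ := Nat.ceil_pos.2 (by linarith)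
    omega
  have hsum1 : ∑ k ∈ F, ((((k + 1 : ℕ) : ℝ)) ^ 2)⁻¹ ≤ 4 * (1 + L) ^ (-(2 / 3 : ℝ)) := by
    have h1 : ∑ k ∈ F, ((((k + 1 : ℕ) : ℝ)) ^ 2)⁻¹ =
        ∑ i ∈ F.image (fun k => k + 1), (((i : ℕ) : ℝ) ^ 2)⁻¹ := by
      rw [sum_image]
      intro x _ y _ h
      simpa using h
    have h2 : F.image (fun k => k + 1) ⊆ Ioo K1 (N + 2) := by
      intro i hi
      rw [mem_image] at hi
      obtain ⟨k, hk, rfl⟩ := hi
      rw [mem_Ioo]
      have h3 : R ≤ ((k + 1 : ℕ) : ℝ) := by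
        push_cast
        exact max_le (by have : (0 : ℝ) ≤ k := Nat.cast_nonneg k; linarith) (hF1 k hk)
      have h4 : ⌈R⌉₊ ≤ k + 1 := Nat.ceil_le.2 h3
      rw [hF, mem_filter, mem_range] at hk
      omega
    have h5 := sum_Ioo_inv_sq_le (α := ℝ) K1 (N + 2)
    have h6 : R ≤ (K1 : ℝ) + 1 := by
      have := Nat.le_ceil R
      rw [hK1] at this
      push_cast at this
      exact this
    rw [h1]
    calc ∑ i ∈ F.image (fun k => k + 1), (((i : ℕ) : ℝ) ^ 2)⁻¹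
        ≤ ∑ i ∈ Ioo K1 (N + 2), (((i : ℕ) : ℝ) ^ 2)⁻¹ :=
          sum_le_sum_of_subset_of_nonneg h2 (fun i _ _ => by positivity)
      _ ≤ 2 / ((K1 : ℝ) + 1) := h5
      _ ≤ 2 / ((1 + L) ^ (2 / 3 : ℝ) / 2) := by
          apply div_le_div_of_nonneg_left (by norm_num)
          · have : 0 < (1 + L) ^ (2 / 3 : ℝ) := Real.rpow_pos_of_pos (by linarith) _
            positivity
          · linarith
      _ = 4 * (1 + L) ^ (-(2 / 3 : ℝ)) := by
          rw [Real.rpow_neg (by linarith)]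
          have : 0 < (1 + L) ^ (2 / 3 : ℝ) := Real.rpow_pos_of_pos (by linarith) _
          field_simp
          norm_num
  have hsum2 : ∑ k ∈ F, (1 + ((m - k : ℕ) : ℝ)) ^ (-a) ≤ C * (1 + L) ^ (4 / 3 - a) := by
    have h1 : F ⊆ range (m + 1) := by
      intro k hk
      rw [mem_range]
      have := hm2 k hk
      omega
    calc ∑ k ∈ F, (1 + ((m - k : ℕ) : ℝ)) ^ (-a)
        ≤ ∑ k ∈ range (m + 1), (1 + ((m - k : ℕ) : ℝ)) ^ (-a) :=
          sum_le_sum_of_subset_of_nonneg h1 (fun i _ _ => Real.rpow_nonneg (by positivity) _)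
      _ = ∑ j ∈ range (m + 1), (1 + (j : ℝ)) ^ (-a) := by
          have := sum_range_reflect (fun j : ℕ => (1 + (j : ℝ)) ^ (-a)) (m + 1)
          rw [← this]
          refine sum_congr rfl fun k _ => ?_
          rfl
      _ ≤ _ := hj L (m + 1) hL0 hm3
  have e1 : (1 + L) ^ (-a) * (1 + L) ^ (-(2 / 3 : ℝ)) = (1 + L) ^ (-(a + 2 / 3)) := by
    rw [← Real.rpow_add (by linarith)]
    congr 1
    ring
  have e2 : (1 + L) ^ (-(2 : ℝ)) * (1 + L) ^ (4 / 3 - a) = (1 + L) ^ (-(a + 2 / 3)) := by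
    rw [← Real.rpow_add (by linarith)]
    congr 1
    ring
  have hA : 0 ≤ (1 + L) ^ (-a) := Real.rpow_nonneg (by linarith) _
  have hA2 : 0 ≤ (1 + L) ^ (-(2 : ℝ)) := Real.rpow_nonneg (by linarith) _
  calc ∑ k ∈ F, (1 + L - k * Real.log 2) ^ (-a) / (1 + (k : ℝ)) ^ 2
      ≤ ∑ k ∈ F, (4 * (1 + L) ^ (-a) * ((((k + 1 : ℕ) : ℝ)) ^ 2)⁻¹ +
        16 * (1 + L) ^ (-(2 : ℝ)) * (1 + ((m - k : ℕ) : ℝ)) ^ (-a)) := sum_le_sum hterm
    _ = 4 * (1 + L) ^ (-a) * ∑ k ∈ F, ((((k + 1 : ℕ) : ℝ)) ^ 2)⁻¹ +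
        16 * (1 + L) ^ (-(2 : ℝ)) * ∑ k ∈ F, (1 + ((m - k : ℕ) : ℝ)) ^ (-a) := by
        rw [sum_add_distrib, mul_sum, mul_sum]
    _ ≤ 4 * (1 + L) ^ (-a) * (4 * (1 + L) ^ (-(2 / 3 : ℝ))) +
        16 * (1 + L) ^ (-(2 : ℝ)) * (C * (1 + L) ^ (4 / 3 - a)) :=
        add_le_add (mul_le_mul_of_nonneg_left hsum1 (by positivity))
          (mul_le_mul_of_nonneg_left hsum2 (by positivity))
    _ = 16 * ((1 + L) ^ (-a) * (1 + L) ^ (-(2 / 3 : ℝ))) +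
        16 * C * ((1 + L) ^ (-(2 : ℝ)) * (1 + L) ^ (4 / 3 - a)) := by ring
    _ = (16 + 16 * C) * (1 + L) ^ (-(a + 2 / 3)) := by
        rw [e1, e2]
        ring

end Pool.Agent.Helper7.PS
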